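import Mathlib
import Pool.Agent.Q201.CCReal

/-! Statements for `MP_cfec29_an`: `T = -100 + (i/2)(1 - S)`, `S` the unilateral shift, is convex-cyclic and
`-T = 100 - (i/2)(1 - S)` is not. -/

set_option autoImplicit false

open MeasureTheory Filter Topology

noncomputable section

namespace Pool.Agent.Q201.NT

/-- the Hilbert space `ℓ²`. -/
abbrev H : Type := lp (fun _ : ℕ => ℂ) 2

/-- the basis vectors. -/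
def e (n : ℕ) : H := lp.single 2 n (1 : ℂ)

/-- the forward shift. -/
def IsShift (S : H →L[ℂ] H) : Prop := (∀ f : H, (S f : ℕ → ℂ) 0 = 0) ∧
  ∀ (f : H) (n : ℕ), (S f : ℕ → ℂ) (n + 1) = (f : ℕ → ℂ) n

/-- Lebesgue measure on `(0, 2π]`. -/
def nu : Measure ℝ := volume.restrict (Set.Ioc 0 (2 * Real.pi))

/-- `J` sends `f` to its boundary function `∑ f_n e^{i n t}`. -/
def IsBd (J : H →L[ℂ] Lp ℂ 2 nu) : Prop :=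
  ∀ n : ℕ, (J (e n) : ℝ → ℂ) =ᵐ[nu] fun t => Complex.exp (n * t * Complex.I)

/-- `N = (i/2)(1 - S)`. -/
def NN (S : H →L[ℂ] H) : H →L[ℂ] H := (Complex.I / 2) • ((1 : H →L[ℂ] H) - S)

/-- `A = 100 - N`. -/
def AA (S : H →L[ℂ] H) : H →L[ℂ] H := (100 : ℂ) • (1 : H →L[ℂ] H) - NN S

/-- the symbol of `A`. -/
def Lam (t : ℝ) : ℂ := 100 - Complex.I / 2 * (1 - Complex.exp (t * Complex.I))

def TaskShift : Prop := ∃ S : H →L[ℂ] H, IsShift S ∧ ‖S‖ ≤ 1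

def TaskBd : Prop := ∃ J : H →L[ℂ] Lp ℂ 2 nu, IsBd J

/-- partial sums converge. -/
def TaskPart : Prop := ∀ y : H,
  Tendsto (fun n : ℕ => ∑ j ∈ Finset.range n, (y : ℕ → ℂ) j • e j) atTop (𝓝 y)

def TaskInter : Prop := ∀ (S : H →L[ℂ] H) (J : H →L[ℂ] Lp ℂ 2 nu), IsShift S → IsBd J → ∀ f : H,
  (J (S f) : ℝ → ℂ) =ᵐ[nu] fun t => Complex.exp (t * Complex.I) * (J f : ℝ → ℂ) t

def TaskPow : Prop := ∀ (S : H →L[ℂ] H) (J : H →L[ℂ] Lp ℂ 2 nu), IsShift S → IsBd J →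
  ∀ (k : ℕ) (f : H), (J ((AA S ^ k) f) : ℝ → ℂ) =ᵐ[nu] fun t => Lam t ^ k * (J f : ℝ → ℂ) t

def TaskJensen : Prop := ∀ (p : Polynomial ℂ) (η : ℝ), p.coeff 0 ≠ 0 → 0 < η →
  2 * Real.pi * Real.log ‖p.coeff 0‖ ≤
    ∫ t, Real.log (‖p.eval (Complex.exp (t * Complex.I))‖ + η) ∂nu

def TaskLim : Prop := ∀ (J : H →L[ℂ] Lp ℂ 2 nu), IsBd J → ∀ (y : H) (η : ℝ),
  (y : ℕ → ℂ) 0 ≠ 0 → 0 < η →
  2 * Real.pi * Real.log ‖(y : ℕ → ℂ) 0‖ ≤ ∫ t, Real.log (‖(J y : ℝ → ℂ) t‖ + η) ∂nu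

def TaskLInt : Prop := ∀ (u : ℝ → ℝ) (c : ℝ), Measurable u → (∀ t, 0 ≤ u t) → Integrable u nu →
  (∀ η : ℝ, 0 < η → c ≤ ∫ t, Real.log (u t + η) ∂nu) →
  ∃ C : ENNReal, C ≠ ⊤ ∧ ∀ η : ℝ, 0 < η → η ≤ 1 →
    ∫⁻ t, ENNReal.ofReal (-Real.log (u t + η)) ∂nu ≤ C

def TaskGood : Prop := ∀ (u : ℝ → ℝ) (C : ENNReal), Measurable u → (∀ t, 0 ≤ u t) → C ≠ ⊤ →
  (∀ η : ℝ, 0 < η → η ≤ 1 → ∫⁻ t, ENNReal.ofReal (-Real.log (u t + η)) ∂nu ≤ C) →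
  ∀ κ : ℝ, 0 < κ → ∀ᶠ d in 𝓝[>] (0 : ℝ),
    ENNReal.ofReal (d / 2) ≤ volume {t : ℝ | d ≤ t ∧ t ≤ 2 * d ∧ Real.exp (-κ / d) ≤ u t}

/-- the modulus of the symbol decreases on `[0, 1]`. -/
def TaskAnti : Prop := ∀ s t : ℝ, 0 ≤ s → s ≤ t → t ≤ 1 → ‖Lam t‖ ≤ ‖Lam s‖

/-- the ratio of the moduli at `2 d` and at `4 d`. -/
def TaskRatio : Prop := ∀ᶠ d in 𝓝[>] (0 : ℝ), ∀ k : ℕ, (15 : ℝ) / d ^ 2 ≤ k →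
  Real.exp (1 / (10 * d)) * ‖Lam (4 * d)‖ ^ k ≤ ‖Lam (2 * d)‖ ^ k

/-- the argument of the symbol is at most `t ^ 2 / 390`. -/
def TaskArg : Prop := ∀ (t : ℝ) (k : ℕ), 0 ≤ t → t ≤ 1 → (k : ℝ) * t ^ 2 ≤ 256 →
  ‖Lam t‖ ^ k / 2 ≤ (Lam t ^ k).re

/-- the positivity estimate. -/
def TaskEst : Prop := ∀ W : ℝ → ℝ, Measurable W → (∀ t, 0 ≤ W t) →
  IntegrableOn W (Set.Ioc 0 1) volume →
  (∀ᶠ d in 𝓝[>] (0 : ℝ),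
    ENNReal.ofReal (d / 2) ≤ volume {t : ℝ | d ≤ t ∧ t ≤ 2 * d ∧ Real.exp (-(1 / 20) / d) ≤ W t}) →
  ∀ᶠ k : ℕ in atTop, 0 ≤ (∫ t in Set.Ioc (0 : ℝ) 1, Lam t ^ k * (W t : ℂ)).re

/-- the two facts about the boundary function of `y`, `y₀ ≠ 0`. -/
def TaskW : Prop := ∀ (J : H →L[ℂ] Lp ℂ 2 nu), IsBd J → ∀ y : H, (y : ℕ → ℂ) 0 ≠ 0 →
  0 < ∫ t in Set.Ioc (0 : ℝ) 1, ‖(J y : ℝ → ℂ) t‖ ^ 2 ∧
  ∀ᶠ k : ℕ in atTop,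
    0 ≤ (∫ t in Set.Ioc (0 : ℝ) 1, Lam t ^ k * ((‖(J y : ℝ → ℂ) t‖ ^ 2 : ℝ) : ℂ)).re

/-- the functional `f ↦ ∫_0^1 (J f) conj (J y)`. -/
def TaskFun : Prop := ∀ (J : H →L[ℂ] Lp ℂ 2 nu) (y : H), ∃ φ : H →L[ℂ] ℂ, ∀ f : H,
  φ f = ∫ t in Set.Ioc (0 : ℝ) 1, (J f : ℝ → ℂ) t * (starRingEnd ℂ) ((J y : ℝ → ℂ) t)

/-- `A` is not convex-cyclic. -/
def TaskNot : Prop := ∀ (S : H →L[ℂ] H), IsShift S → ∀ y : H,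
  ¬ Dense (convexHull ℝ (Set.range fun n : ℕ => (AA S ^ n) y))

/-- the resolvent vector `(1 - z (1 - S))⁻¹ e₀` for `re z < 1 / 2`. -/
def TaskRes : Prop := ∃ v : ℂ → H,
  (∀ S : H →L[ℂ] H, IsShift S → ∀ z : ℂ, z.re < 1 / 2 → v z - z • (v z - S (v z)) = e 0) ∧
  (∀ (z : ℂ) (n : ℕ), z.re < 1 / 2 → (v z : ℕ → ℂ) n = (1 - z)⁻¹ * (z / (z - 1)) ^ n) ∧
  (∀ z : ℂ, z.re < 1 / 2 → ‖v z‖ = (1 - 2 * z.re) ^ (-(1 / 2) : ℝ))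

/-- the resolvent vector is weakly analytic. -/
def TaskDiff : Prop := ∀ (v : ℂ → H) (φ : H →L[ℂ] ℂ),
  (∀ (z : ℂ) (n : ℕ), z.re < 1 / 2 → (v z : ℕ → ℂ) n = (1 - z)⁻¹ * (z / (z - 1)) ^ n) →
  DifferentiableOn ℂ (fun z => φ (v z)) {z : ℂ | z.re < 1 / 2}

/-- near `0` the resolvent vector is the Neumann series. -/
def TaskNeu : Prop := ∀ (S : H →L[ℂ] H) (v : ℂ → H), IsShift S → ‖S‖ ≤ 1 →
  (∀ z : ℂ, z.re < 1 / 2 → v z - z • (v z - S (v z)) = e 0) →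
  ∀ (φ : H →L[ℂ] ℂ) (z : ℂ), ‖z‖ < 1 / 4 →
    HasSum (fun k : ℕ => z ^ k * φ ((((1 : H →L[ℂ] H) - S) ^ k) (e 0))) (φ (v z))

/-- an entire function glued from two half planes and bounded there vanishes. -/
def TaskLiou : Prop := ∀ (F G : ℂ → ℂ) (C : ℝ),
  DifferentiableOn ℂ F {z : ℂ | z.re < 1 / 2} → DifferentiableOn ℂ G {z : ℂ | z.re < 1 / 2} →
  (∀ z : ℂ, z.re < 1 / 2 → ‖F z‖ ≤ C * (1 - 2 * z.re) ^ (-(1 / 2) : ℝ)) →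
  (∀ z : ℂ, z.re < 1 / 2 → ‖G z‖ ≤ C * (1 - 2 * z.re) ^ (-(1 / 2) : ℝ)) →
  (∀ z : ℂ, ‖z‖ < 1 / 4 → F z = - G (-z)) → ∀ z : ℂ, z.re < 1 / 2 → F z = 0

/-- if the values on all resolvent vectors vanish then the functional is zero. -/
def TaskInj : Prop := ∀ (v : ℂ → H) (φ : H →L[ℂ] ℂ),
  (∀ (z : ℂ) (n : ℕ), z.re < 1 / 2 → (v z : ℕ → ℂ) n = (1 - z)⁻¹ * (z / (z - 1)) ^ n) →
  (∀ z : ℂ, z.re < 1 / 2 → φ (v z) = 0) → φ = 0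

/-- `e₀` is a cyclic vector for `N` over the reals. -/
def TaskCyc : Prop := ∀ S : H →L[ℂ] H, IsShift S → ‖S‖ ≤ 1 →
  Dense (Submodule.span ℝ (Set.range fun k : ℕ => (NN S ^ k) (e 0)) : Set H)

/-- `T = -A` is convex-cyclic. -/
def TaskCC : Prop := ∀ S : H →L[ℂ] H, IsShift S → ‖S‖ ≤ 1 →
  Dense (convexHull ℝ (Set.range fun n : ℕ => ((-AA S) ^ n) (e 0)))

end Pool.Agent.Q201.NT
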