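import Pool.Agent.Q201.NT.Stmts

/-! # Proof of `TaskBd` -/

set_option autoImplicit false

open MeasureTheory Filter Topology Complex

noncomputable section

namespace Pool.Agent.Q201.NT.TaskBd

private instance fin_nu : IsFiniteMeasure nu := by unfold nu; infer_instance

private def fn (n : ℕ) (t : ℝ) : ℂ := Complex.exp (n * t * Complex.I)

private lemma fn_mem (n : ℕ) : MemLp (fn n) 2 nu := by
  apply MemLp.of_bound (C := 1)
  · exact (by unfold fn; fun_prop : Continuous (fn n)).aestronglyMeasurable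
  · filter_upwards with t
    unfold fn
    have : ((n : ℂ) * (t : ℂ) * I) = ((n * t : ℝ) : ℂ) * I := by push_cast; ring
    rw [this, Complex.norm_exp_ofReal_mul_I]

private lemma int_exp (n m : ℕ) : ∫ t, fn m t * (starRingEnd ℂ) (fn n t) ∂nu =
    if n = m then (2 * Real.pi : ℂ) else 0 := by
  have h0 : ∀ t : ℝ, fn m t * (starRingEnd ℂ) (fn n t) = Complex.exp ((((m : ℂ) - n) * I) * t) := by
    intro t
    unfold fn
    rw [← Complex.exp_conj, ← Complex.exp_add]
    congr 1
    simp only [map_mul, Complex.conj_natCast, Complex.conj_ofReal, Complex.conj_I]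
    ring
  simp_rw [h0]
  unfold nu
  rw [← intervalIntegral.integral_of_le (by positivity)]
  split_ifs with h
  · subst h
    simp
  · have hne : ((m : ℂ) - n) * I ≠ 0 := by
      apply mul_ne_zero _ Complex.I_ne_zero
      rw [sub_ne_zero]
      intro h1
      exact h (by exact_mod_cast h1.symm)
    rw [integral_exp_mul_complex hne]
    have h1 : Complex.exp ((((m : ℂ) - n) * I) * ((2 * Real.pi : ℝ) : ℂ)) = 1 := by
      have := Complex.exp_int_mul_two_pi_mul_I ((m : ℤ) - n)
      rw [← this]
      congr 1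
      push_cast
      ring
    rw [h1]
    simp

private def gn (n : ℕ) : Lp ℂ 2 nu := (((Real.sqrt (2 * Real.pi))⁻¹ : ℝ) : ℂ) • (fn_mem n).toLp

private lemma gn_inner (n m : ℕ) : inner ℂ (gn n) (gn m) = if n = m then (1 : ℂ) else 0 := by
  have h1 : inner ℂ ((fn_mem n).toLp) ((fn_mem m).toLp) = if n = m then (2 * Real.pi : ℂ) else 0 := by
    rw [L2.inner_def, ← int_exp n m]
    apply integral_congr_ae
    filter_upwards [(fn_mem n).coeFn_toLp, (fn_mem m).coeFn_toLp] with t h2 h3
    rw [h2, h3]
    simp [mul_comm]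
  unfold gn
  rw [inner_smul_left, inner_smul_right, h1]
  have hp : (0 : ℝ) < 2 * Real.pi := by positivity
  split_ifs with h
  · rw [Complex.conj_ofReal]
    have h4 : (Real.sqrt (2 * Real.pi))⁻¹ * ((Real.sqrt (2 * Real.pi))⁻¹ * (2 * Real.pi)) = 1 := by
      rw [← mul_assoc, ← mul_inv, Real.mul_self_sqrt hp.le, inv_mul_cancel₀ hp.ne']
    have h5 := congrArg (fun x : ℝ => (x : ℂ)) h4
    simpa using h5
  · simp

private lemma gn_on : Orthonormal ℂ gn := by
  classical
  rw [orthonormal_iff_ite]
  exact gn_inner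

theorem main : Pool.Agent.Q201.NT.TaskBd := by
  classical
  refine ⟨((Real.sqrt (2 * Real.pi) : ℝ) : ℂ) •
    (gn_on.orthogonalFamily.linearIsometry).toContinuousLinearMap, ?_⟩
  intro n
  have h1 : (((Real.sqrt (2 * Real.pi) : ℝ) : ℂ) •
      (gn_on.orthogonalFamily.linearIsometry).toContinuousLinearMap) (e n) = (fn_mem n).toLp := by
    rw [ContinuousLinearMap.smul_apply, LinearIsometry.coe_toContinuousLinearMap]
    unfold e
    rw [OrthogonalFamily.linearIsometry_apply_single]
    rw [LinearIsometry.toSpanSingleton_apply, one_smul]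
    unfold gn
    rw [smul_smul]
    have hp : (0 : ℝ) < Real.sqrt (2 * Real.pi) := by positivity
    have h4 : ((Real.sqrt (2 * Real.pi) : ℝ) : ℂ) * (((Real.sqrt (2 * Real.pi))⁻¹ : ℝ) : ℂ) = 1 := by
      rw [← Complex.ofReal_mul, mul_inv_cancel₀ hp.ne', Complex.ofReal_one]
    rw [h4, one_smul]
  rw [h1]
  filter_upwards [(fn_mem n).coeFn_toLp] with t h2
  rw [h2]
  rfl

end Pool.Agent.Q201.NT.TaskBd
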