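import Pool.Agent.Q201.NT.Stmts

set_option autoImplicit false

open Filter Topology

noncomputable section

namespace Pool.Agent.Q201.NT.TaskCC

theorem main (hC : TaskCyc) : Pool.Agent.Q201.NT.TaskCC := by
  intro S hS hS1
  have hN : ‖NN S‖ ≤ 1 := by
    unfold NN
    rw [norm_smul]
    have h1 : ‖(1 : H →L[ℂ] H) - S‖ ≤ 2 := by
      refine (norm_sub_le _ _).trans ?_
      have : ‖(1 : H →L[ℂ] H)‖ ≤ 1 := ContinuousLinearMap.norm_id_le
      linarith
    have h2 : ‖(Complex.I / 2 : ℂ)‖ = 1 / 2 := by simp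
    rw [h2]
    linarith
  have hNr : ‖(NN S).restrictScalars ℝ‖ ≤ 1 := by
    rw [ContinuousLinearMap.norm_restrictScalars]
    exact hN
  have hpow : ∀ k : ℕ, ∀ x : H, (((NN S).restrictScalars ℝ) ^ k) x = ((NN S) ^ k) x := by
    intro k
    induction k with
    | zero => intro x; rfl
    | succ k ih => intro x; rw [pow_succ, pow_succ, ContinuousLinearMap.mul_apply, ih]; rfl
  have hc : Pool.Agent.Q201.CC.Cyc ((NN S).restrictScalars ℝ) (e 0) := by
    unfold Pool.Agent.Q201.CC.Cyc
    simp only [hpow]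
    exact hC S hS hS1
  have h3 := Pool.Agent.Q201.CC.cc_of_cyc hNr (e 0) hc
  have h4 : ∀ n : ℕ, ∀ x : H, ((Pool.Agent.Q201.CC.TT ((NN S).restrictScalars ℝ)) ^ n) x =
      ((-AA S) ^ n) x := by
    intro n
    induction n with
    | zero => intro x; rfl
    | succ n ih =>
      intro x
      rw [pow_succ, pow_succ, ContinuousLinearMap.mul_apply, ih, ContinuousLinearMap.mul_apply]
      congr 1
      have e1 : ((100 : ℂ) • x) = ((100 : ℝ) • x) := by
        have : (100 : ℂ) = ((100 : ℝ) : ℂ) := by norm_num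
        rw [this]
        exact Complex.coe_smul _ _
      have e2 : (-AA S) x = -((100 : ℂ) • x - NN S x) := rfl
      have e3 : (Pool.Agent.Q201.CC.TT ((NN S).restrictScalars ℝ)) x =
          (-100 : ℝ) • x + NN S x := rfl
      rw [e2, e3, e1, neg_smul]
      abel
  simp only [h4] at h3
  exact h3

end Pool.Agent.Q201.NT.TaskCC
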