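import Pool.Agent.Q201.NT.Stmts

set_option autoImplicit false

open Filter Topology ComplexConjugate

namespace Pool.Agent.Q201.NT.TaskCyc

theorem NN_pow (S : H →L[ℂ] H) (k : ℕ) (f : H) :
    (NN S ^ k) f = (Complex.I / 2) ^ k • (((1 : H →L[ℂ] H) - S) ^ k) f := by
  unfold NN
  rw [smul_pow]
  rfl

theorem coef (k : ℕ) (c : ℂ) (h : ((Complex.I / 2) ^ k * c).re = 0) :
    c = - ((-1) ^ k * conj c) := by
  have h1 : (Complex.I / 2) ^ k * c + conj ((Complex.I / 2) ^ k * c) = 0 := by
    rw [Complex.add_conj, h]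
    simp
  rw [map_mul, map_pow, map_div₀, Complex.conj_I] at h1
  have h2 : (conj (2 : ℂ)) = 2 := Complex.conj_ofNat 2
  rw [h2, show (-Complex.I / 2 : ℂ) = (-1) * (Complex.I / 2) by ring, mul_pow] at h1
  have h3 : (Complex.I / 2) ^ k ≠ 0 := pow_ne_zero _ (by simp)
  have h4 : (Complex.I / 2) ^ k * (c + (-1) ^ k * conj c) = 0 := by linear_combination h1
  rcases mul_eq_zero.1 h4 with h5 | h5
  · exact absurd h5 h3
  · linear_combination h5

theorem main (hR : TaskRes) (hD : TaskDiff) (hN : TaskNeu) (hL : TaskLiou) (hI : TaskInj) :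
    Pool.Agent.Q201.NT.TaskCyc := by
  intro S hS hS1
  set K : Submodule ℝ H := Submodule.span ℝ (Set.range fun k : ℕ => (NN S ^ k) (e 0)) with hK
  by_contra hnd
  obtain ⟨x, hx⟩ : ∃ x : H, x ∉ closure (K : Set H) := by
    by_contra hcon
    push Not at hcon
    exact hnd hcon
  obtain ⟨φ, u, h1, h2⟩ := RCLike.geometric_hahn_banach_closed_point (𝕜 := ℂ)
    (K.convex.closure) isClosed_closure hx
  have hre : ∀ a ∈ K, (φ a).re = 0 := by
    intro a ha
    by_contra hne
    have h3 := h1 (((|u| + 1) / (φ a).re : ℝ) • a) (subset_closure (K.smul_mem _ ha))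
    have h4 : φ (((|u| + 1) / (φ a).re : ℝ) • a) = (((|u| + 1) / (φ a).re : ℝ) : ℂ) * φ a := by
      rw [← smul_eq_mul, ← map_smul]
      rfl
    have h5 : (φ (((|u| + 1) / (φ a).re : ℝ) • a)).re = |u| + 1 := by
      rw [h4, Complex.re_ofReal_mul, div_mul_cancel₀ _ hne]
    have h6 : (φ (((|u| + 1) / (φ a).re : ℝ) • a)).re < u := h3
    rw [h5] at h6
    have := le_abs_self u
    linarith
  have hc : ∀ k : ℕ, φ ((((1 : H →L[ℂ] H) - S) ^ k) (e 0)) =
      - ((-1) ^ k * conj (φ ((((1 : H →L[ℂ] H) - S) ^ k) (e 0)))) := by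
    intro k
    apply coef
    have := hre _ (Submodule.subset_span (Set.mem_range_self k))
    rw [NN_pow, map_smul, smul_eq_mul] at this
    exact this
  obtain ⟨v, hv1, hv2, hv3⟩ := hR
  have hdF := hD v φ hv2
  have hopen : IsOpen {z : ℂ | z.re < 1 / 2} := isOpen_lt Complex.continuous_re continuous_const
  have hdG : DifferentiableOn ℂ (fun z => conj (φ (v (conj z)))) {z : ℂ | z.re < 1 / 2} := by
    intro z hz
    have hz' : (conj z) ∈ {z : ℂ | z.re < 1 / 2} := by
      simpa using hz
    have h3 : DifferentiableAt ℂ (fun z => φ (v z)) (conj z) :=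
      (hdF _ hz').differentiableAt (hopen.mem_nhds hz')
    have h4 := (differentiableAt_conj_conj_iff (f := fun z => φ (v z)) (x := z)).2 h3
    exact h4.differentiableWithinAt
  have hF0 := hL (fun z => φ (v z)) (fun z => conj (φ (v (conj z)))) ‖φ‖ hdF hdG
    (fun z hz => by
      have := φ.le_opNorm (v z)
      rwa [hv3 z hz] at this)
    (fun z hz => by
      have hz' : (conj z).re < 1 / 2 := by simpa using hz
      have := φ.le_opNorm (v (conj z))
      rw [hv3 _ hz', Complex.conj_re] at this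
      rw [RCLike.norm_conj]
      exact this)
    (fun z hz => by
      have s1 := hN S v hS hS1 (fun z hz => hv1 S hS z hz) φ z hz
      have hz2 : ‖conj (-z)‖ < 1 / 4 := by
        rw [RCLike.norm_conj, norm_neg]; exact hz
      have s2 := hN S v hS hS1 (fun z hz => hv1 S hS z hz) φ (conj (-z)) hz2
      have s3 := (s2.map (starRingEnd ℂ) Complex.continuous_conj).neg
      have heq : (fun k : ℕ => z ^ k * φ ((((1 : H →L[ℂ] H) - S) ^ k) (e 0))) = fun k : ℕ =>
          - (starRingEnd ℂ) ((conj (-z)) ^ k * φ ((((1 : H →L[ℂ] H) - S) ^ k) (e 0))) := by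
        funext k
        rw [map_mul, map_pow, Complex.conj_conj, neg_pow]
        have := hc k
        linear_combination z ^ k * this
      rw [heq] at s1
      exact s1.unique s3)
  have hφ := hI v φ hv2 hF0
  have h7 := h1 0 (subset_closure K.zero_mem)
  rw [hφ] at h7 h2
  have h8 : (0 : ℝ) < u := by simpa using h7
  have h9 : u < 0 := by simpa using h2
  linarith

end Pool.Agent.Q201.NT.TaskCyc
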