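import Pool.Agent.Q201.NT.Stmts

set_option autoImplicit false

namespace Pool.Agent.Q201.NT.TaskDiff

open Filter Topology Pool.Agent.Q201.NT

theorem norm_e (n : ℕ) : ‖e n‖ = 1 := by
  unfold e
  rw [lp.norm_single (by norm_num)]
  simp

theorem main (hP : TaskPart) : Pool.Agent.Q201.NT.TaskDiff := by
  intro v φ hv
  set c : ℕ → ℂ := fun n => φ (e n) with hc
  have hcb : ∀ n, ‖c n‖ ≤ ‖φ‖ := by
    intro n
    have := φ.le_opNorm (e n)
    rwa [norm_e, mul_one] at this
  set P : ℂ → ℂ := fun w => ∑' j, c j * w ^ j with hPdef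
  -- differentiability of the power series
  have hPd : ∀ w : ℂ, ‖w‖ < 1 → DifferentiableAt ℂ P w := by
    intro w hw
    obtain ⟨r, hr1, hr2⟩ := exists_between hw
    have hr0 : 0 ≤ r := (norm_nonneg w).trans hr1.le
    have h1 : DifferentiableOn ℂ (fun w => ∑' j, c j * w ^ j) (Metric.ball 0 r) := by
      apply Complex.differentiableOn_tsum_of_summable_norm (u := fun j => ‖φ‖ * r ^ j)
      · exact (summable_geometric_of_lt_one hr0 hr2).mul_left _
      · intro i
        fun_prop
      · exact Metric.isOpen_ball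
      · intro i w hw
        rw [mem_ball_zero_iff] at hw
        rw [norm_mul, norm_pow]
        exact mul_le_mul (hcb i) (pow_le_pow_left₀ (norm_nonneg _) hw.le _) (by positivity)
          (norm_nonneg _)
    exact h1.differentiableAt (Metric.isOpen_ball.mem_nhds (by
      rw [mem_ball_zero_iff]
      exact hr1))
  have hsum : ∀ w : ℂ, ‖w‖ < 1 → Summable fun j => c j * w ^ j := by
    intro w hw
    apply Summable.of_norm_bounded (g := fun j => ‖φ‖ * ‖w‖ ^ j)
    · exact (summable_geometric_of_lt_one (norm_nonneg _) hw).mul_left _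
    · intro i
      rw [norm_mul, norm_pow]
      exact mul_le_mul_of_nonneg_right (hcb i) (by positivity)
  have hlt : ∀ z : ℂ, z.re < 1 / 2 → ‖z / (z - 1)‖ < 1 := by
    intro z hz
    have hz1 : z - 1 ≠ 0 := by
      intro h
      have : z.re = 1 := by
        have := congrArg Complex.re h
        simp at this
        linarith
      linarith
    rw [norm_div, div_lt_one (norm_pos_iff.2 hz1)]
    apply lt_of_pow_lt_pow_left₀ 2 (norm_nonneg _)
    rw [Complex.sq_norm, Complex.sq_norm, Complex.normSq_apply, Complex.normSq_apply]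
    simp
    nlinarith
  have hformula : ∀ z : ℂ, z.re < 1 / 2 → φ (v z) = (1 - z)⁻¹ * P (z / (z - 1)) := by
    intro z hz
    have h1 := hP (v z)
    have h2 : Tendsto (fun n : ℕ => φ (∑ j ∈ Finset.range n, (v z : ℕ → ℂ) j • e j)) atTop
        (𝓝 (φ (v z))) := (φ.continuous.tendsto _).comp h1
    have h3 : ∀ n : ℕ, φ (∑ j ∈ Finset.range n, (v z : ℕ → ℂ) j • e j) =
        (1 - z)⁻¹ * ∑ j ∈ Finset.range n, c j * (z / (z - 1)) ^ j := by
      intro n
      rw [map_sum, Finset.mul_sum]
      apply Finset.sum_congr rfl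
      intro j _
      rw [map_smul, smul_eq_mul, hv z j hz]
      simp only [hc]
      ring
    have h4 : Tendsto (fun n : ℕ => (1 - z)⁻¹ * ∑ j ∈ Finset.range n, c j * (z / (z - 1)) ^ j) atTop
        (𝓝 ((1 - z)⁻¹ * P (z / (z - 1)))) :=
      ((hsum _ (hlt z hz)).hasSum.tendsto_sum_nat).const_mul _
    have h5 : (fun n : ℕ => φ (∑ j ∈ Finset.range n, (v z : ℕ → ℂ) j • e j)) =
        fun n : ℕ => (1 - z)⁻¹ * ∑ j ∈ Finset.range n, c j * (z / (z - 1)) ^ j := funext h3
    rw [h5] at h2
    exact tendsto_nhds_unique h2 h4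
  have hd : DifferentiableOn ℂ (fun z : ℂ => (1 - z)⁻¹ * P (z / (z - 1))) {z : ℂ | z.re < 1 / 2} := by
    intro z hz
    have hz' : z.re < 1 / 2 := hz
    have hz1 : z ≠ 1 := by
      rintro rfl
      norm_num at hz'
    have hz2 : z - 1 ≠ 0 := sub_ne_zero.2 hz1
    have hz3 : 1 - z ≠ 0 := sub_ne_zero.2 hz1.symm
    apply DifferentiableAt.differentiableWithinAt
    apply DifferentiableAt.mul
    · exact ((differentiableAt_const _).sub differentiableAt_id).inv hz3
    · have hin : DifferentiableAt ℂ (fun z : ℂ => z / (z - 1)) z := by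
        fun_prop (disch := exact hz2)
      exact DifferentiableAt.comp z (hPd _ (hlt z hz')) hin
  exact hd.congr fun z hz => hformula z hz

end Pool.Agent.Q201.NT.TaskDiff
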