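import Pool.Agent.Q201.NT.Stmts

set_option autoImplicit false

open MeasureTheory Filter Topology

namespace Pool.Agent.Q201.NT.TaskFun

open Pool.Agent.Q201.NT

theorem main : Pool.Agent.Q201.NT.TaskFun := by
  intro J y
  have hm : MemLp ((Set.Ioc (0 : ℝ) 1).indicator (J y : ℝ → ℂ)) 2 nu :=
    (Lp.memLp (J y)).indicator measurableSet_Ioc
  refine ⟨(innerSL ℂ (hm.toLp _)).comp J, fun f => ?_⟩
  have h1 : (fun t => inner ℂ ((hm.toLp _ : Lp ℂ 2 nu) t) ((J f : ℝ → ℂ) t)) =ᵐ[nu]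
      (Set.Ioc (0 : ℝ) 1).indicator
        (fun t => (J f : ℝ → ℂ) t * (starRingEnd ℂ) ((J y : ℝ → ℂ) t)) := by
    filter_upwards [hm.coeFn_toLp] with t ht
    rw [ht, RCLike.inner_apply]
    by_cases h : t ∈ Set.Ioc (0 : ℝ) 1
    · rw [Set.indicator_of_mem h, Set.indicator_of_mem h]
    · rw [Set.indicator_of_notMem h, Set.indicator_of_notMem h, map_zero, mul_zero]
  have h2 : ((innerSL ℂ (hm.toLp _)).comp J) f =
      ∫ t, inner ℂ ((hm.toLp _ : Lp ℂ 2 nu) t) ((J f : ℝ → ℂ) t) ∂nu := by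
    rw [ContinuousLinearMap.comp_apply, innerSL_apply_apply, L2.inner_def]
  rw [h2, integral_congr_ae h1, integral_indicator measurableSet_Ioc]
  have h3 : nu.restrict (Set.Ioc (0 : ℝ) 1) = volume.restrict (Set.Ioc (0 : ℝ) 1) := by
    unfold nu
    rw [Measure.restrict_restrict measurableSet_Ioc, Set.inter_eq_self_of_subset_left]
    exact Set.Ioc_subset_Ioc_right (by linarith [Real.pi_gt_three])
  rw [h3]

end Pool.Agent.Q201.NT.TaskFun
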