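import Pool.Agent.Q201.NT.Stmts

set_option autoImplicit false

open MeasureTheory Filter Topology

noncomputable section

namespace Pool.Agent.Q201.NT

theorem taskGood : TaskGood := by
  intro u C hu hu0 hC hint κ hκ
  set F : ℕ → ℝ → ENNReal := fun n t => ENNReal.ofReal (-Real.log (u t + 1 / ((n : ℝ) + 1))) with hF
  set U : ℝ → ENNReal := fun t => ⨆ n, F n t with hU
  have hpos : ∀ n : ℕ, (0 : ℝ) < 1 / ((n : ℝ) + 1) := fun n => Nat.one_div_pos_of_nat
  have hFm : ∀ n, Measurable (F n) := by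
    intro n
    exact ((Real.measurable_log.comp (hu.add_const _)).neg).ennreal_ofReal
  have hmono : Monotone F := by
    intro n m hnm t
    apply ENNReal.ofReal_le_ofReal
    apply neg_le_neg
    apply Real.log_le_log
    · have := hu0 t
      have := hpos m
      linarith
    · have := Nat.one_div_le_one_div (α := ℝ) hnm
      linarith
  have hUint : ∫⁻ t, U t ∂nu ≤ C := by
    rw [hU, lintegral_iSup hFm hmono]
    refine iSup_le fun n => hint _ (hpos n) ?_
    rw [div_le_one (by positivity)]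
    have : (0 : ℝ) ≤ n := n.cast_nonneg
    linarith
  have hUne : ∫⁻ t, U t ∂nu ≠ ⊤ := ne_top_of_le_ne_top hC hUint
  -- the measure of `[d, 2 d]` tends to zero
  have hvol : ∀ d : ℝ, 0 < d → volume (Set.Icc d (2 * d)) = ENNReal.ofReal d := by
    intro d hd
    rw [Real.volume_Icc]
    congr 1
    ring
  have hlim : Tendsto (fun d : ℝ => nu (Set.Icc d (2 * d))) (𝓝[>] 0) (𝓝 0) := by
    have h1 : Tendsto (fun d : ℝ => ENNReal.ofReal d) (𝓝[>] 0) (𝓝 0) := by
      have : Tendsto (fun d : ℝ => ENNReal.ofReal d) (𝓝 0) (𝓝 (ENNReal.ofReal 0)) :=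
        (ENNReal.continuous_ofReal.tendsto 0)
      rw [ENNReal.ofReal_zero] at this
      exact this.mono_left nhdsWithin_le_nhds
    refine tendsto_of_tendsto_of_tendsto_of_le_of_le' tendsto_const_nhds h1
      (Eventually.of_forall fun _ => bot_le) ?_
    filter_upwards [self_mem_nhdsWithin] with d hd
    rw [← hvol d hd]
    exact Measure.restrict_apply_le _ _
  have hset := tendsto_setLIntegral_zero hUne (s := fun d : ℝ => Set.Icc d (2 * d)) hlim
  have hκ2 : (0 : ENNReal) < ENNReal.ofReal (κ / 2) := by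
    rw [ENNReal.ofReal_pos]
    linarith
  have hev := hset.eventually (gt_mem_nhds hκ2)
  have hsmall : ∀ᶠ d : ℝ in 𝓝[>] 0, 2 * d < 1 := by
    have : Tendsto (fun d : ℝ => 2 * d) (𝓝 0) (𝓝 (2 * 0)) := (continuous_const.mul continuous_id).tendsto 0
    rw [mul_zero] at this
    exact (this.mono_left nhdsWithin_le_nhds).eventually (gt_mem_nhds one_pos)
  filter_upwards [hev, hsmall, self_mem_nhdsWithin] with d hd hd1 hd0
  have hd0' : (0 : ℝ) < d := hd0
  set B : Set ℝ := {t : ℝ | d ≤ t ∧ t ≤ 2 * d ∧ u t < Real.exp (-κ / d)} with hB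
  have hBm : MeasurableSet B :=
    (measurableSet_le measurable_const measurable_id).inter
      ((measurableSet_le measurable_id measurable_const).inter
        (measurableSet_lt hu measurable_const))
  have hUB : ∀ t ∈ B, ENNReal.ofReal (κ / d) ≤ U t := by
    rintro t ⟨_, _, ht⟩
    obtain ⟨n, hn⟩ := exists_nat_one_div_lt (sub_pos.2 ht)
    refine le_trans ?_ (le_iSup (fun n => F n t) n)
    apply ENNReal.ofReal_le_ofReal
    have h1 : u t + 1 / ((n : ℝ) + 1) ≤ Real.exp (-κ / d) := by linarith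
    have h2 : 0 < u t + 1 / ((n : ℝ) + 1) := by
      have := hu0 t
      have := hpos n
      linarith
    have h3 := Real.log_le_log h2 h1
    rw [Real.log_exp] at h3
    have : -κ / d = -(κ / d) := by ring
    rw [this] at h3
    linarith
  have hBnu : volume B = nu B := by
    rw [nu, Measure.restrict_apply hBm]
    congr 1
    symm
    rw [Set.inter_eq_left]
    rintro t ⟨h1, h2, _⟩
    have := Real.pi_gt_three
    exact ⟨by linarith, by linarith⟩
  have hMarkov : ENNReal.ofReal (κ / d) * volume B ≤ ENNReal.ofReal (κ / 2) := by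
    rw [hBnu, ← setLIntegral_const]
    calc ∫⁻ _ in B, ENNReal.ofReal (κ / d) ∂nu ≤ ∫⁻ t in B, U t ∂nu :=
          setLIntegral_mono' hBm hUB
      _ ≤ ∫⁻ t in Set.Icc d (2 * d), U t ∂nu :=
          lintegral_mono_set (fun t ht => ⟨ht.1, ht.2.1⟩)
      _ ≤ ENNReal.ofReal (κ / 2) := hd.le
  have hBle : volume B ≤ ENNReal.ofReal (d / 2) := by
    have e1 : ENNReal.ofReal (κ / 2) = ENNReal.ofReal (κ / d) * ENNReal.ofReal (d / 2) := by
      rw [← ENNReal.ofReal_mul (by positivity)]
      congr 1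
      field_simp
    rw [e1] at hMarkov
    have hk : ENNReal.ofReal (κ / d) ≠ 0 := by
      rw [ENNReal.ofReal_ne_zero_iff]
      positivity
    exact (ENNReal.mul_le_mul_iff_right hk ENNReal.ofReal_ne_top).1 hMarkov
  have hcover : Set.Icc d (2 * d) ⊆
      {t : ℝ | d ≤ t ∧ t ≤ 2 * d ∧ Real.exp (-κ / d) ≤ u t} ∪ B := by
    intro t ht
    rcases le_or_gt (Real.exp (-κ / d)) (u t) with h | h
    · exact Or.inl ⟨ht.1, ht.2, h⟩
    · exact Or.inr ⟨ht.1, ht.2, h⟩
  have hsum : ENNReal.ofReal (d / 2) + ENNReal.ofReal (d / 2) ≤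
      volume {t : ℝ | d ≤ t ∧ t ≤ 2 * d ∧ Real.exp (-κ / d) ≤ u t} + ENNReal.ofReal (d / 2) := by
    calc ENNReal.ofReal (d / 2) + ENNReal.ofReal (d / 2) = ENNReal.ofReal d := by
          rw [← ENNReal.ofReal_add (by positivity) (by positivity)]
          congr 1
          ring
      _ = volume (Set.Icc d (2 * d)) := (hvol d hd0).symm
      _ ≤ _ := (measure_mono hcover).trans ((measure_union_le _ _).trans
          (add_le_add le_rfl hBle))
  exact (ENNReal.add_le_add_iff_right ENNReal.ofReal_ne_top).1 hsum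

end Pool.Agent.Q201.NT
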