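import Pool.Agent.Q201.NT.Stmts

/-! Task `NT.TaskInj` (helper179). -/

set_option autoImplicit false

open MeasureTheory Filter Topology

noncomputable section

namespace Pool.Agent.Q201.NT.TaskInj

theorem hasSum_e (f : H) : HasSum (fun i : ℕ => (f : ℕ → ℂ) i • e i) f := by
  have h := lp.hasSum_single (E := fun _ : ℕ => ℂ) (p := 2) (by norm_num) f
  have h2 : (fun i : ℕ => (f : ℕ → ℂ) i • e i) =
      fun i : ℕ => lp.single (E := fun _ : ℕ => ℂ) 2 i ((f : ℕ → ℂ) i) := by
    funext i
    unfold e
    rw [← lp.single_smul]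
    simp
  rw [h2]
  exact h

theorem uniq (c : ℕ → ℂ) (h : ∀ w : ℂ, ‖w‖ < 1 → HasSum (fun n => w ^ n * c n) 0) (n : ℕ) :
    c n = 0 := by
  have h1 : HasFPowerSeriesAt (0 : ℂ → ℂ) (FormalMultilinearSeries.ofScalars ℂ c) 0 := by
    rw [hasFPowerSeriesAt_iff]
    have hb : Metric.ball (0 : ℂ) 1 ∈ 𝓝 (0 : ℂ) := Metric.ball_mem_nhds _ one_pos
    filter_upwards [hb] with w hw
    have hw' : ‖w‖ < 1 := by simpa using hw
    simpa [FormalMultilinearSeries.coeff_ofScalars] using h w hw'
  have h2 := h1.eq_zero
  rw [FormalMultilinearSeries.ofScalars_series_eq_zero] at h2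
  exact congrFun h2 n

theorem main : Pool.Agent.Q201.NT.TaskInj := by
  intro v φ hv h0
  have hc : ∀ n, φ (e n) = 0 := by
    apply uniq
    intro w hw
    have hw1 : w - 1 ≠ 0 := by
      intro h
      have : w = 1 := by linear_combination h
      rw [this] at hw
      simp at hw
    -- z = w / (w - 1)
    have hz1 : 1 - w / (w - 1) ≠ 0 := by
      have : 1 - w / (w - 1) = -1 / (w - 1) := by field_simp; ring
      rw [this]
      exact div_ne_zero (by norm_num) hw1
    have hzw : w / (w - 1) / (w / (w - 1) - 1) = w := by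
      have : w / (w - 1) - 1 = 1 / (w - 1) := by field_simp; ring
      rw [this]
      field_simp
    have hre : (w / (w - 1)).re < 1 / 2 := by
      have e1 : w / (w - 1) = 1 + 1 / (w - 1) := by field_simp; ring
      have hn : 0 < Complex.normSq (w - 1) := Complex.normSq_pos.mpr hw1
      rw [e1]
      have e2 : (1 + 1 / (w - 1)).re = 1 + (w.re - 1) / Complex.normSq (w - 1) := by
        simp [Complex.add_re, Complex.inv_re]
      rw [e2]
      have hns : Complex.normSq w < 1 := by
        rw [Complex.normSq_eq_norm_sq]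
        have := norm_nonneg w
        nlinarith
      have e3 : Complex.normSq (w - 1) = Complex.normSq w - 2 * w.re + 1 := by
        simp [Complex.normSq_apply]; ring
      have : (w.re - 1) / Complex.normSq (w - 1) < -(1 / 2) := by
        rw [div_lt_iff₀ hn, e3]
        linarith
      linarith
    have hs := (hasSum_e (v (w / (w - 1)))).mapL φ
    rw [h0 _ hre] at hs
    have hs2 := hs.mul_left (1 - w / (w - 1))
    rw [mul_zero] at hs2
    have he : (fun n : ℕ => w ^ n * φ (e n)) = fun i : ℕ =>
        (1 - w / (w - 1)) * φ (((v (w / (w - 1)) : H) : ℕ → ℂ) i • e i) := by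
      funext n
      rw [map_smul, hv _ n hre, hzw, smul_eq_mul]
      field_simp
    rw [he]
    exact hs2
  ext f
  have hs := (hasSum_e f).mapL φ
  have hz : (fun i : ℕ => φ ((f : ℕ → ℂ) i • e i)) = fun _ => 0 := by
    funext i
    rw [map_smul, hc i, smul_zero]
  have hs' : HasSum (fun i : ℕ => φ ((f : ℕ → ℂ) i • e i)) (φ f) := hs
  rw [hz] at hs'
  have := hs'.unique hasSum_zero
  simpa using this

end Pool.Agent.Q201.NT.TaskInj
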