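import Pool.Agent.Q201.NT.Stmts

set_option autoImplicit false

open MeasureTheory Filter Topology

noncomputable section

namespace Pool.Agent.Q201.NT.TaskInter

open Pool.Agent.Q201.NT

theorem shift_e (S : H →L[ℂ] H) (hS : IsShift S) (n : ℕ) : S (e n) = e (n + 1) := by
  apply lp.ext
  funext m
  cases m with
  | zero =>
    rw [hS.1]
    unfold e
    rw [lp.coeFn_single, Pi.single_apply, if_neg (by omega)]
  | succ m =>
    rw [hS.2]
    unfold e
    rw [lp.coeFn_single, lp.coeFn_single, Pi.single_apply, Pi.single_apply]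
    simp only [Nat.add_right_cancel_iff]

theorem fin (S : H →L[ℂ] H) (J : H →L[ℂ] Lp ℂ 2 nu) (hS : IsShift S) (hJ : IsBd J) (y : ℕ → ℂ) (n : ℕ) :
    (J (S (∑ j ∈ Finset.range n, y j • e j)) : ℝ → ℂ) =ᵐ[nu]
      fun t => Complex.exp (t * Complex.I) * (J (∑ j ∈ Finset.range n, y j • e j) : ℝ → ℂ) t := by
  induction n with
  | zero =>
    rw [Finset.range_zero, Finset.sum_empty, map_zero, map_zero]
    filter_upwards [Lp.coeFn_zero ℂ 2 nu] with t ht
    rw [ht]
    simp
  | succ n ih =>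
    rw [Finset.sum_range_succ]
    obtain ⟨P, hP⟩ : ∃ P, P = ∑ j ∈ Finset.range n, y j • e j := ⟨_, rfl⟩
    rw [← hP] at ih ⊢
    rw [map_add, map_add, map_add, map_smul, map_smul, map_smul, shift_e S hS]
    filter_upwards [ih, Lp.coeFn_add (J (S P)) (y n • J (e (n + 1))), Lp.coeFn_add (J P) (y n • J (e n)),
      Lp.coeFn_smul (y n) (J (e (n + 1))), Lp.coeFn_smul (y n) (J (e n)), hJ (n + 1), hJ n]
      with t h1 h2 h3 h4 h5 h6 h7
    rw [h2, h3, Pi.add_apply, Pi.add_apply, h4, h5, Pi.smul_apply, Pi.smul_apply, h6, h7, h1, smul_eq_mul, smul_eq_mul]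
    have h8 : Complex.exp (((n + 1 : ℕ) : ℂ) * t * Complex.I) =
        Complex.exp (t * Complex.I) * Complex.exp (n * t * Complex.I) := by
      rw [← Complex.exp_add]
      congr 1
      push_cast
      ring
    rw [h8]
    ring

theorem main (hPart : TaskPart) : Pool.Agent.Q201.NT.TaskInter := by
  intro S J hS hJ f
  obtain ⟨P, hP⟩ : ∃ P : ℕ → H, P = fun n => ∑ j ∈ Finset.range n, (f : ℕ → ℂ) j • e j := ⟨_, rfl⟩
  have hlim : Tendsto P atTop (𝓝 f) := by rw [hP]; exact hPart f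
  have hfin : ∀ n, (J (S (P n)) : ℝ → ℂ) =ᵐ[nu] fun t => Complex.exp (t * Complex.I) * (J (P n) : ℝ → ℂ) t := by
    intro n
    rw [hP]
    exact fin S J hS hJ _ n
  have hmexp : AEStronglyMeasurable (fun t : ℝ => Complex.exp (t * Complex.I)) nu := by
    apply Continuous.aestronglyMeasurable
    fun_prop
  have key : ∀ n, eLpNorm (fun t => (J (S f) : ℝ → ℂ) t - Complex.exp (t * Complex.I) * (J f : ℝ → ℂ) t) 2 nu ≤
      edist (J (S f)) (J (S (P n))) + edist (J (P n)) (J f) := by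
    intro n
    rw [Lp.edist_def, Lp.edist_def]
    have e1 : (fun t => (J (S f) : ℝ → ℂ) t - Complex.exp (t * Complex.I) * (J f : ℝ → ℂ) t) =ᵐ[nu]
        ((J (S f) : ℝ → ℂ) - (J (S (P n)) : ℝ → ℂ)) +
          fun t : ℝ => Complex.exp (t * Complex.I) * ((J (P n) : ℝ → ℂ) - (J f : ℝ → ℂ)) t := by
      filter_upwards [hfin n] with t ht
      simp only [Pi.add_apply, Pi.sub_apply]
      rw [ht]
      ring
    rw [eLpNorm_congr_ae e1]
    have m1 : AEStronglyMeasurable ((J (S f) : ℝ → ℂ) - (J (S (P n)) : ℝ → ℂ)) nu :=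
      (Lp.aestronglyMeasurable _).sub (Lp.aestronglyMeasurable _)
    have m2 : AEStronglyMeasurable (fun t : ℝ => Complex.exp (t * Complex.I) * ((J (P n) : ℝ → ℂ) - (J f : ℝ → ℂ)) t) nu :=
      hmexp.mul ((Lp.aestronglyMeasurable _).sub (Lp.aestronglyMeasurable _))
    refine (eLpNorm_add_le m1 m2 (by norm_num)).trans ?_
    gcongr
    apply le_of_eq
    apply eLpNorm_congr_norm_ae
    filter_upwards with t
    rw [norm_mul, Complex.norm_exp_ofReal_mul_I, one_mul]
  have hlim2 : Tendsto (fun n => edist (J (S f)) (J (S (P n))) + edist (J (P n)) (J f)) atTop (𝓝 (0 + 0)) := by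
    apply Tendsto.add
    · have h1 : Tendsto (fun n => J (S (P n))) atTop (𝓝 (J (S f))) :=
        ((J.continuous.comp S.continuous).tendsto f).comp hlim
      have h2 := tendsto_iff_edist_tendsto_0.mp h1
      simp only [edist_comm] at h2 ⊢
      exact h2
    · have h1 : Tendsto (fun n => J (P n)) atTop (𝓝 (J f)) := (J.continuous.tendsto f).comp hlim
      exact tendsto_iff_edist_tendsto_0.mp h1
  rw [add_zero] at hlim2
  have hzero : eLpNorm (fun t => (J (S f) : ℝ → ℂ) t - Complex.exp (t * Complex.I) * (J f : ℝ → ℂ) t) 2 nu = 0 :=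
    le_antisymm (ge_of_tendsto' hlim2 key) bot_le
  have hm : AEStronglyMeasurable
      (fun t => (J (S f) : ℝ → ℂ) t - Complex.exp (t * Complex.I) * (J f : ℝ → ℂ) t) nu :=
    (Lp.aestronglyMeasurable _).sub (hmexp.mul (Lp.aestronglyMeasurable _))
  have hzero' := (eLpNorm_eq_zero_iff hm (by norm_num)).mp hzero
  filter_upwards [hzero'] with t ht
  have : (J (S f) : ℝ → ℂ) t - Complex.exp (t * Complex.I) * (J f : ℝ → ℂ) t = 0 := ht
  exact sub_eq_zero.mp this

end Pool.Agent.Q201.NT.TaskInter
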