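import Pool.Agent.Q201.NT.Stmts

set_option autoImplicit false

open MeasureTheory Filter Topology

namespace Pool.Agent.Q201.NT.TaskJensen

theorem main : Pool.Agent.Q201.NT.TaskJensen := by
  intro p η hp hη
  have hp0 : p ≠ 0 := by
    rintro rfl
    simp at hp
  have h1 : ‖p.coeff 0‖ ≤ p.mahlerMeasure := by
    have := Polynomial.norm_coeff_le_choose_mul_mahlerMeasure 0 p
    simpa using this
  have h2 : Real.log ‖p.coeff 0‖ ≤ p.logMahlerMeasure := by
    rw [Polynomial.logMahlerMeasure_eq_log_MahlerMeasure]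
    exact Real.log_le_log (norm_pos_iff.2 hp) h1
  have hpi : (0 : ℝ) < 2 * Real.pi := by positivity
  have h3 : 2 * Real.pi * p.logMahlerMeasure =
      ∫ t in (0 : ℝ)..(2 * Real.pi), Real.log ‖p.eval (circleMap 0 1 t)‖ := by
    rw [Polynomial.logMahlerMeasure_def, Real.circleAverage_def, smul_eq_mul, ← mul_assoc,
      mul_inv_cancel₀ hpi.ne', one_mul]
  have h4 : ∫ t in (0 : ℝ)..(2 * Real.pi), Real.log ‖p.eval (circleMap 0 1 t)‖ ≤
      ∫ t in (0 : ℝ)..(2 * Real.pi), Real.log (‖p.eval (circleMap 0 1 t)‖ + η) := by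
    refine intervalIntegral.integral_mono_ae hpi.le p.intervalIntegrable_mahlerMeasure ?_ ?_
    · refine Continuous.intervalIntegrable ?_ _ _
      refine Continuous.log ?_ fun t => by positivity
      exact ((p.continuous.comp (continuous_circleMap 0 1)).norm).add continuous_const
    · have hc : ((fun t : ℝ => circleMap 0 1 t) ⁻¹' (p.roots.toFinset : Set ℂ)).Countable :=
        Set.Countable.preimage_circleMap (p.roots.toFinset.countable_toSet) 0 one_ne_zero
      filter_upwards [hc.ae_notMem volume] with t ht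
      have h5 : p.eval (circleMap 0 1 t) ≠ 0 := by
        intro h6
        apply ht
        simp only [Set.mem_preimage, Finset.mem_coe, Multiset.mem_toFinset]
        exact (Polynomial.mem_roots hp0).2 h6
      exact Real.log_le_log (norm_pos_iff.2 h5) (by linarith)
  have h5 : ∫ t, Real.log (‖p.eval (Complex.exp (t * Complex.I))‖ + η) ∂nu =
      ∫ t in (0 : ℝ)..(2 * Real.pi), Real.log (‖p.eval (circleMap 0 1 t)‖ + η) := by
    rw [intervalIntegral.integral_of_le hpi.le]
    unfold nu
    simp [circleMap]
  rw [h5]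
  refine le_trans ?_ (h3.le.trans h4)
  exact mul_le_mul_of_nonneg_left h2 hpi.le

end Pool.Agent.Q201.NT.TaskJensen
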