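import Pool.Agent.Q201.NT.Stmts

/-!
# The negative part of the logarithm is uniformly integrable
-/

set_option autoImplicit false

open MeasureTheory Filter Topology

namespace Pool.Agent.Q201.NT.TaskLInt

theorem main : Pool.Agent.Q201.NT.TaskLInt := by
  intro u c hm h0 hint hc
  haveI : IsFiniteMeasure nu := by
    unfold nu
    infer_instance
  refine ⟨ENNReal.ofReal (∫ t, (u t + 1) ∂nu - c), ENNReal.ofReal_ne_top, fun η hη hη1 => ?_⟩
  have hup : ∀ t, Real.log (u t + η) ≤ u t + 1 := by
    intro t
    have h1 := Real.log_le_sub_one_of_pos (x := u t + η) (by linarith [h0 t])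
    linarith
  have hlo : ∀ t, Real.log η ≤ Real.log (u t + η) := by
    intro t
    exact Real.log_le_log hη (by linarith [h0 t])
  have hmeas : Measurable fun t => Real.log (u t + η) :=
    Real.measurable_log.comp (hm.add_const η)
  have hi1 : Integrable (fun t => u t + 1) nu := hint.add (integrable_const 1)
  have hi2 : Integrable (fun t => Real.log (u t + η)) nu := by
    refine Integrable.mono' (hi1.add (integrable_const |Real.log η|)) hmeas.aestronglyMeasurable ?_
    refine Filter.Eventually.of_forall fun t => ?_
    rw [Real.norm_eq_abs, abs_le]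
    have h1 := hup t
    have h2 := hlo t
    have h3 := h0 t
    have h4 := neg_abs_le (Real.log η)
    have h5 := abs_nonneg (Real.log η)
    constructor
    · show -(u t + 1 + |Real.log η|) ≤ _
      linarith
    · show _ ≤ u t + 1 + |Real.log η|
      linarith
  have hi3 : Integrable (fun t => (u t + 1) - Real.log (u t + η)) nu := hi1.sub hi2
  calc ∫⁻ t, ENNReal.ofReal (-Real.log (u t + η)) ∂nu
      ≤ ∫⁻ t, ENNReal.ofReal ((u t + 1) - Real.log (u t + η)) ∂nu := by
        refine lintegral_mono fun t => ENNReal.ofReal_le_ofReal ?_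
        linarith [h0 t]
    _ = ENNReal.ofReal (∫ t, ((u t + 1) - Real.log (u t + η)) ∂nu) := by
        rw [ofReal_integral_eq_lintegral_ofReal hi3]
        refine Filter.Eventually.of_forall fun t => ?_
        show 0 ≤ (u t + 1) - Real.log (u t + η)
        linarith [hup t]
    _ ≤ ENNReal.ofReal (∫ t, (u t + 1) ∂nu - c) := by
        refine ENNReal.ofReal_le_ofReal ?_
        rw [integral_sub hi1 hi2]
        linarith [hc η hη]

end Pool.Agent.Q201.NT.TaskLInt
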