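import Pool.Agent.Q201.NT.Stmts
set_option autoImplicit false

namespace Pool.Agent.Q201.NT.TaskLim
open Pool.Agent.Q201.NT MeasureTheory Filter Topology

theorem nu_finite : IsFiniteMeasure nu := by
  unfold nu; infer_instance

theorem log_le {η : ℝ} (hη : 0 < η) {a b : ℝ} (hb : 0 ≤ b) (hab : b ≤ a) :
    |Real.log (a + η) - Real.log (b + η)| ≤ |a - b| / η := by
  have h1 : 0 < b + η := by linarith
  have h2 : 0 < a + η := by linarith
  rw [abs_of_nonneg (sub_nonneg.2 (Real.log_le_log h1 (by linarith))), abs_of_nonneg (sub_nonneg.2 hab),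
    ← Real.log_div h2.ne' h1.ne']
  have h3 : Real.log ((a + η) / (b + η)) ≤ (a + η) / (b + η) - 1 :=
    Real.log_le_sub_one_of_pos (div_pos h2 h1)
  have h4 : (a + η) / (b + η) - 1 = (a - b) / (b + η) := by
    field_simp
    ring
  rw [h4] at h3
  exact h3.trans (div_le_div_of_nonneg_left (by linarith) hη (by linarith))

theorem log_lip {η : ℝ} (hη : 0 < η) {a b : ℝ} (ha : 0 ≤ a) (hb : 0 ≤ b) :
    |Real.log (a + η) - Real.log (b + η)| ≤ |a - b| / η := by
  rcases le_total b a with h | h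
  · exact log_le hη hb h
  · rw [abs_sub_comm, abs_sub_comm a b]
    exact log_le hη ha h

theorem main (hJen : TaskJensen) (hPart : TaskPart) : Pool.Agent.Q201.NT.TaskLim := by
  intro J hJ y η hy hη
  haveI := nu_finite
  set p : ℕ → Polynomial ℂ := fun n =>
    ∑ j ∈ Finset.range n, Polynomial.C ((y : ℕ → ℂ) j) * Polynomial.X ^ j with hp
  set P : ℕ → H := fun n => ∑ j ∈ Finset.range n, (y : ℕ → ℂ) j • e j with hP
  have hJP : ∀ n, (J (P n) : ℝ → ℂ) =ᵐ[nu] fun t => (p n).eval (Complex.exp (t * Complex.I)) := by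
    intro n
    induction n with
    | zero =>
      have h0 : J (P 0) = 0 := by simp [hP]
      rw [h0]
      filter_upwards [Lp.coeFn_zero ℂ 2 nu] with t ht
      rw [ht]; simp [hp]
    | succ n ih =>
      have h1 : J (P (n + 1)) = J (P n) + (y : ℕ → ℂ) n • J (e n) := by
        simp only [hP]
        rw [Finset.sum_range_succ, map_add, map_smul]
      rw [h1]
      filter_upwards [ih, hJ n, Lp.coeFn_add (J (P n)) ((y : ℕ → ℂ) n • J (e n)),
        Lp.coeFn_smul ((y : ℕ → ℂ) n) (J (e n))] with t h2 h3 h4 h5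
      rw [h4, Pi.add_apply, h2, h5, Pi.smul_apply, h3]
      simp only [hp]
      rw [Finset.sum_range_succ, Polynomial.eval_add]
      simp only [smul_eq_mul, Polynomial.eval_mul, Polynomial.eval_C, Polynomial.eval_pow,
        Polynomial.eval_X]
      congr 2
      rw [← Complex.exp_nat_mul]
      ring_nf
  have hconv : Tendsto (fun n => J (P n)) atTop (𝓝 (J y)) :=
    (J.continuous.tendsto y).comp (hPart y)
  rw [Lp.tendsto_Lp_iff_tendsto_eLpNorm'] at hconv
  have hmeas : ∀ f : Lp ℂ 2 nu, AEStronglyMeasurable (fun t => Real.log (‖(f : ℝ → ℂ) t‖ + η)) nu := by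
    intro f
    have h1 : AEMeasurable (fun t => ‖(f : ℝ → ℂ) t‖ + η) nu :=
      ((Lp.aestronglyMeasurable f).norm.aemeasurable).add_const η
    exact (Real.measurable_log.comp_aemeasurable h1).aestronglyMeasurable
  have hint : ∀ f : Lp ℂ 2 nu, Integrable (fun t => Real.log (‖(f : ℝ → ℂ) t‖ + η)) nu := by
    intro f
    have h1 : Integrable (f : ℝ → ℂ) nu := (Lp.memLp f).integrable (by norm_num)
    have h2 : Integrable (fun t => ‖(f : ℝ → ℂ) t‖ / η + |Real.log η|) nu :=
      (h1.norm.div_const η).add (integrable_const _)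
    refine h2.mono' (hmeas f) (Eventually.of_forall fun t => ?_)
    have h3 := log_lip hη (norm_nonneg ((f : ℝ → ℂ) t)) le_rfl
    rw [zero_add, sub_zero, abs_of_nonneg (norm_nonneg _)] at h3
    rw [Real.norm_eq_abs]
    have h4 := abs_sub_abs_le_abs_sub (Real.log (‖(f : ℝ → ℂ) t‖ + η)) (Real.log η)
    linarith
  have hlim : Tendsto (fun n => ∫ t, Real.log (‖(J (P n) : ℝ → ℂ) t‖ + η) ∂nu) atTop
      (𝓝 (∫ t, Real.log (‖(J y : ℝ → ℂ) t‖ + η) ∂nu)) := by
    refine tendsto_integral_of_L1' _ (hmeas (J y)) (Eventually.of_forall fun n => hint (J (P n))) ?_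
    have hb : ∀ n, eLpNorm ((fun t => Real.log (‖(J (P n) : ℝ → ℂ) t‖ + η)) -
        (fun t => Real.log (‖(J y : ℝ → ℂ) t‖ + η))) 1 nu ≤
        ENNReal.ofReal (1 / η) * (eLpNorm (⇑(J (P n)) - ⇑(J y)) 2 nu *
          (nu Set.univ) ^ (1 / (1 : ENNReal).toReal - 1 / (2 : ENNReal).toReal)) := by
      intro n
      have h1 : eLpNorm ((fun t => Real.log (‖(J (P n) : ℝ → ℂ) t‖ + η)) -
        (fun t => Real.log (‖(J y : ℝ → ℂ) t‖ + η))) 1 nu ≤
          ENNReal.ofReal (1 / η) * eLpNorm (⇑(J (P n)) - ⇑(J y)) 1 nu := by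
        apply eLpNorm_le_mul_eLpNorm_of_ae_le_mul
        refine Eventually.of_forall fun t => ?_
        simp only [Pi.sub_apply]
        rw [Real.norm_eq_abs]
        have h2 := log_lip hη (norm_nonneg ((J (P n) : ℝ → ℂ) t)) (norm_nonneg ((J y : ℝ → ℂ) t))
        have h3 := abs_norm_sub_norm_le ((J (P n) : ℝ → ℂ) t) ((J y : ℝ → ℂ) t)
        calc _ ≤ |‖(J (P n) : ℝ → ℂ) t‖ - ‖(J y : ℝ → ℂ) t‖| / η := h2
          _ ≤ ‖(J (P n) : ℝ → ℂ) t - (J y : ℝ → ℂ) t‖ / η := by gcongr
          _ = 1 / η * ‖(J (P n) : ℝ → ℂ) t - (J y : ℝ → ℂ) t‖ := by ring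
      refine h1.trans ?_
      gcongr
      refine eLpNorm_le_eLpNorm_mul_rpow_measure_univ (by norm_num) ?_
      exact (Lp.aestronglyMeasurable _).sub (Lp.aestronglyMeasurable _)
    refine tendsto_of_tendsto_of_tendsto_of_le_of_le tendsto_const_nhds ?_ (fun n => zero_le) hb
    have hc : (nu Set.univ) ^ (1 / (1 : ENNReal).toReal - 1 / (2 : ENNReal).toReal) ≠ ⊤ := by
      apply ENNReal.rpow_ne_top_of_nonneg
      · norm_num
      · exact measure_ne_top _ _
    have h5 := ENNReal.Tendsto.const_mul (a := ENNReal.ofReal (1 / η))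
      (ENNReal.Tendsto.mul_const hconv (Or.inr hc)) (Or.inr ENNReal.ofReal_ne_top)
    simpa using h5
  refine ge_of_tendsto hlim ?_
  filter_upwards [eventually_ge_atTop 1] with n hn
  have hc0 : (p n).coeff 0 = (y : ℕ → ℂ) 0 := by
    simp only [hp, Polynomial.finsetSum_coeff, Polynomial.coeff_C_mul, Polynomial.coeff_X_pow]
    rw [Finset.sum_eq_single 0]
    · simp
    · intro j _ hj
      rw [if_neg (Ne.symm hj), mul_zero]
    · intro h
      exact absurd (Finset.mem_range.2 (by omega)) h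
  have h1 := hJen (p n) η (by rw [hc0]; exact hy) hη
  rw [hc0] at h1
  refine h1.trans (le_of_eq ?_)
  apply integral_congr_ae
  filter_upwards [hJP n] with t ht
  rw [ht]

end Pool.Agent.Q201.NT.TaskLim
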