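import Pool.Agent.Q201.NT.Stmts

/-! An entire function glued from two half planes (blueprint lemma for `MP_cfec29_an`). -/

set_option autoImplicit false

open MeasureTheory Filter Topology

noncomputable section

namespace Pool.Agent.Q201.NT.TaskLiou

theorem main : Pool.Agent.Q201.NT.TaskLiou := by
  intro F G C hF hG hFC hGC hFG
  set A : Set ℂ := {z : ℂ | z.re < 1 / 2} with hA
  set U : Set ℂ := Complex.re ⁻¹' Set.Ioo (-(1 / 2) : ℝ) (1 / 2) with hU
  have hAo : IsOpen A := isOpen_lt Complex.continuous_re continuous_const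
  have hUo : IsOpen U := isOpen_Ioo.preimage Complex.continuous_re
  have hUc : IsPreconnected U := by
    have : Convex ℝ U := (convex_Ioo (-(1 / 2) : ℝ) (1 / 2)).linear_preimage Complex.reLm
    exact this.isPreconnected
  -- the reflected function
  set A' : Set ℂ := {z : ℂ | -(1 / 2) < z.re} with hA'
  have hAo' : IsOpen A' := isOpen_lt continuous_const Complex.continuous_re
  have hG' : DifferentiableOn ℂ (fun z => - G (-z)) A' := by
    apply DifferentiableOn.neg
    refine hG.comp (differentiable_neg.differentiableOn) ?_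
    intro z hz
    show (-z).re < 1 / 2
    have hz' : -(1 / 2) < z.re := hz
    rw [Complex.neg_re]; linarith
  have hEq : Set.EqOn F (fun z => - G (-z)) U := by
    have hUA : U ⊆ A := fun z hz => hz.2
    have hUA' : U ⊆ A' := fun z hz => hz.1
    refine AnalyticOnNhd.eqOn_of_preconnected_of_eventuallyEq
      ((hF.mono hUA).analyticOnNhd hUo) ((hG'.mono hUA').analyticOnNhd hUo) hUc
      (z₀ := 0) (by constructor <;> norm_num) ?_
    filter_upwards [Metric.ball_mem_nhds (0 : ℂ) (show (0 : ℝ) < 1 / 4 by norm_num)] with z hz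
    exact hFG z (by simpa using hz)
  classical
  set E : ℂ → ℂ := fun z => if z.re < 1 / 2 then F z else - G (-z) with hE
  have hE1 : ∀ z ∈ A, E z = F z := fun z hz => by
    have hz' : z.re < 1 / 2 := hz
    simp only [hE]; rw [if_pos hz']
  have hE2 : ∀ z ∈ A', E z = - G (-z) := fun z hz => by
    simp only [hE]
    split_ifs with h
    · exact hEq ⟨hz, h⟩
    · rfl
  have hdiff : Differentiable ℂ E := by
    intro z
    by_cases hz : z.re < 1 / 2
    · have h1 : DifferentiableAt ℂ F z := (hF z hz).differentiableAt (hAo.mem_nhds hz)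
      refine h1.congr_of_eventuallyEq ?_
      filter_upwards [hAo.mem_nhds hz] with w hw
      exact hE1 w hw
    · have hz' : z ∈ A' := by
        show -(1 / 2) < z.re
        push Not at hz; linarith
      have h1 : DifferentiableAt ℂ (fun z => - G (-z)) z :=
        (hG' z hz').differentiableAt (hAo'.mem_nhds hz')
      refine h1.congr_of_eventuallyEq ?_
      filter_upwards [hAo'.mem_nhds hz'] with w hw
      exact hE2 w hw
  have hC : 0 ≤ C := by
    have h := hFC 0 (by norm_num)
    have h2 : C * (1 - 2 * (0 : ℂ).re) ^ (-(1 / 2) : ℝ) = C := by simp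
    rw [h2] at h
    exact (norm_nonneg _).trans h
  have hle : ∀ r : ℝ, 0 ≤ r → C * (1 + 2 * r) ^ (-(1 / 2) : ℝ) ≤ C := by
    intro r hr
    have h1 : (1 + 2 * r) ^ (-(1 / 2) : ℝ) ≤ 1 :=
      Real.rpow_le_one_of_one_le_of_nonpos (by linarith) (by norm_num)
    calc C * (1 + 2 * r) ^ (-(1 / 2) : ℝ) ≤ C * 1 := mul_le_mul_of_nonneg_left h1 hC
      _ = C := mul_one C
  have hbd : ∀ z, ‖E z‖ ≤ C := by
    intro z
    rcases le_total z.re 0 with h | h
    · have hzA : z ∈ A := by show z.re < 1 / 2; linarith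
      rw [hE1 z hzA]
      refine (hFC z hzA).trans ?_
      have := hle (-z.re) (by linarith)
      have e1 : 1 - 2 * z.re = 1 + 2 * (-z.re) := by ring
      rw [e1]; exact this
    · have hzA : z ∈ A' := by show -(1 / 2) < z.re; linarith
      rw [hE2 z hzA, norm_neg]
      refine (hGC (-z) (by rw [Complex.neg_re]; linarith)).trans ?_
      have := hle z.re h
      have e1 : 1 - 2 * (-z).re = 1 + 2 * z.re := by rw [Complex.neg_re]; ring
      rw [e1]; exact this
  have hconst : ∀ z w, E z = E w := by
    apply hdiff.apply_eq_apply_of_bounded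
    rw [isBounded_iff_forall_norm_le]
    exact ⟨C, by rintro _ ⟨z, rfl⟩; exact hbd z⟩
  have hzero : E 0 = 0 := by
    have h1 : ∀ n : ℕ, ‖E 0‖ ≤ C * (1 + 2 * (n : ℝ)) ^ (-(1 / 2) : ℝ) := by
      intro n
      have hn : (-(n : ℂ)) ∈ A := by
        show (-(n : ℂ)).re < 1 / 2
        rw [Complex.neg_re, Complex.natCast_re]
        have : (0 : ℝ) ≤ n := Nat.cast_nonneg n
        linarith
      rw [hconst 0 (-(n : ℂ)), hE1 _ hn]
      have h2 := hFC (-(n : ℂ)) hn
      have e1 : 1 - 2 * (-(n : ℂ)).re = 1 + 2 * (n : ℝ) := by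
        rw [Complex.neg_re, Complex.natCast_re]; ring
      rw [e1] at h2
      exact h2
    have h2 : Tendsto (fun n : ℕ => C * (1 + 2 * (n : ℝ)) ^ (-(1 / 2) : ℝ)) atTop (𝓝 (C * 0)) := by
      apply Tendsto.const_mul
      have h3 : Tendsto (fun n : ℕ => 1 + 2 * (n : ℝ)) atTop atTop := by
        apply tendsto_atTop_add_const_left
        exact tendsto_natCast_atTop_atTop.const_mul_atTop (by norm_num)
      exact (tendsto_rpow_neg_atTop (y := 1 / 2) (by norm_num)).comp h3
    rw [mul_zero] at h2
    have h3 : ‖E 0‖ ≤ 0 := ge_of_tendsto' h2 h1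
    exact norm_le_zero_iff.mp h3
  intro z hz
  rw [← hE1 z hz, hconst z 0, hzero]

end Pool.Agent.Q201.NT.TaskLiou
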