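import Pool.Agent.Q201.NT.Stmts

set_option autoImplicit false

open MeasureTheory Filter Topology

noncomputable section

namespace Pool.Agent.Q201.NT.TaskNeu

theorem main : Pool.Agent.Q201.NT.TaskNeu := by
  intro S v _ hS hv φ z hz
  have hzre : z.re < 1 / 2 := by
    have := Complex.re_le_norm z
    linarith
  set A : H →L[ℂ] H := z • ((1 : H →L[ℂ] H) - S) with hA
  have hB : ‖(1 : H →L[ℂ] H) - S‖ ≤ 2 := by
    calc ‖(1 : H →L[ℂ] H) - S‖ ≤ ‖(1 : H →L[ℂ] H)‖ + ‖S‖ := norm_sub_le _ _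
      _ ≤ 1 + 1 := add_le_add (ContinuousLinearMap.norm_id_le) hS
      _ = 2 := by norm_num
  have hA1 : ‖A‖ < 1 := by
    rw [hA, norm_smul]
    calc ‖z‖ * ‖(1 : H →L[ℂ] H) - S‖ ≤ ‖z‖ * 2 :=
          mul_le_mul_of_nonneg_left hB (norm_nonneg _)
      _ < 1 := by linarith
  have hs : Summable fun n : ℕ => A ^ n := summable_geometric_of_norm_lt_one hA1
  have hg : (∑' i : ℕ, A ^ i) * (1 - A) = 1 := geom_series_mul_neg A hA1
  have hx : (1 - A) (v z) = e 0 := by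
    rw [← hv z hzre]
    simp [hA]
  have hx2 : (∑' i : ℕ, A ^ i) (e 0) = v z := by
    rw [← hx]
    change ((∑' i : ℕ, A ^ i) * (1 - A)) (v z) = v z
    rw [hg]
    rfl
  have h1 : HasSum (fun i : ℕ => (A ^ i) (e 0)) ((∑' i : ℕ, A ^ i) (e 0)) :=
    (ContinuousLinearMap.apply ℂ H (e 0)).hasSum hs.hasSum
  rw [hx2] at h1
  have h2 := φ.hasSum h1
  have e1 : (fun k : ℕ => z ^ k * φ ((((1 : H →L[ℂ] H) - S) ^ k) (e 0))) =
      (fun i : ℕ => φ ((A ^ i) (e 0))) := by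
    funext i
    rw [hA, smul_pow, ContinuousLinearMap.smul_apply, map_smul, smul_eq_mul]
  rw [e1]
  exact h2

end Pool.Agent.Q201.NT.TaskNeu
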