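import Pool.Agent.Q201.NT.Stmts

set_option autoImplicit false

open Filter Topology

namespace Pool.Agent.Q201.NT.TaskPart

theorem main : Pool.Agent.Q201.NT.TaskPart := by
  intro y
  have h := (lp.hasSum_single (p := 2) (by norm_num) y).tendsto_sum_nat
  refine h.congr fun n => Finset.sum_congr rfl fun j _ => ?_
  have h2 : (y : ℕ → ℂ) j • e j = lp.single (E := fun _ : ℕ => ℂ) 2 j ((y : ℕ → ℂ) j • (1 : ℂ)) := by
    unfold e
    rw [← lp.single_smul]
  rw [h2]
  simp

end Pool.Agent.Q201.NT.TaskPart
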