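import Mathlib
import Pool.Agent.Q201.NT.Stmts

set_option autoImplicit false

open MeasureTheory Filter Topology

namespace Pool.Agent.Q201.NT.TaskPow



theorem main (hInter : Pool.Agent.Q201.NT.TaskInter) : Pool.Agent.Q201.NT.TaskPow := by
  intro S J hS hJ k
  induction k with
  | zero =>
    intro f
    have h : ((AA S ^ 0) f) = f := by simp
    rw [h]
    exact Filter.Eventually.of_forall fun t => by simp
  | succ k ih =>
    intro f
    have h1 : ((AA S ^ (k + 1)) f) = (AA S ^ k) (AA S f) := by
      rw [pow_succ]; rfl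
    rw [h1]
    have h2 := ih (AA S f)
    have h3 : J (AA S f) = (100 : ℂ) • J f - (Complex.I / 2) • (J f - J (S f)) := by
      have : AA S f = (100 : ℂ) • f - (Complex.I / 2) • (f - S f) := rfl
      rw [this, map_sub, map_smul, map_smul, map_sub]
    have h4 := hInter S J hS hJ f
    have h5 := Lp.coeFn_sub ((100 : ℂ) • J f) ((Complex.I / 2) • (J f - J (S f)))
    have h6 := Lp.coeFn_smul (100 : ℂ) (J f)
    have h7 := Lp.coeFn_smul (Complex.I / 2) (J f - J (S f))
    have h8 := Lp.coeFn_sub (J f) (J (S f))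
    rw [h3] at h2
    filter_upwards [h2, h4, h5, h6, h7, h8] with t t2 t4 t5 t6 t7 t8
    have e3 : ((J (AA S f) : Lp ℂ 2 nu) : ℝ → ℂ) t = Lam t * (J f : ℝ → ℂ) t := by
      rw [h3, t5]
      simp only [Pi.sub_apply]
      rw [t6, t7]
      simp only [Pi.smul_apply, smul_eq_mul]
      rw [t8]
      simp only [Pi.sub_apply]
      rw [t4]
      unfold Lam
      ring
    rw [h3] at e3
    rw [t2, e3]
    ring

end Pool.Agent.Q201.NT.TaskPow
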