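import Pool.Agent.Q201.NT.Stmts

set_option autoImplicit false

open MeasureTheory Filter Topology

noncomputable section

namespace Pool.Agent.Q201.NT.TaskRes

open Pool.Agent.Q201.NT

theorem ne_one {z : ℂ} (hz : z.re < 1 / 2) : 1 - z ≠ 0 := by
  intro h
  have := congrArg Complex.re h
  simp at this
  linarith

theorem ne_one' {z : ℂ} (hz : z.re < 1 / 2) : z - 1 ≠ 0 := by
  intro h
  have := congrArg Complex.re h
  simp at this
  linarith

theorem sq_sub {z : ℂ} : ‖z - 1‖ ^ 2 = ‖z‖ ^ 2 + (1 - 2 * z.re) := by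
  rw [Complex.sq_norm, Complex.sq_norm, Complex.normSq_apply, Complex.normSq_apply]
  simp
  ring

theorem w_lt {z : ℂ} (hz : z.re < 1 / 2) : ‖z / (z - 1)‖ ^ 2 < 1 := by
  have h0 : 0 < ‖z - 1‖ ^ 2 := by
    have := norm_pos_iff.2 (ne_one' hz)
    positivity
  rw [norm_div, div_pow, div_lt_one h0, sq_sub]
  linarith

/-- the coordinates -/
def vf (z : ℂ) (n : ℕ) : ℂ := (1 - z)⁻¹ * (z / (z - 1)) ^ n

theorem norm_vf (z : ℂ) (n : ℕ) : ‖vf z n‖ ^ (ENNReal.toReal 2) =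
    ‖(1 - z)⁻¹‖ ^ 2 * (‖z / (z - 1)‖ ^ 2) ^ n := by
  have h2 : (ENNReal.toReal 2) = ((2 : ℕ) : ℝ) := by simp
  rw [h2, Real.rpow_natCast, vf, norm_mul, norm_pow, mul_pow, ← pow_mul, ← pow_mul, mul_comm n 2]

theorem summable_vf {z : ℂ} (hz : z.re < 1 / 2) :
    Summable fun n => ‖vf z n‖ ^ (ENNReal.toReal 2) := by
  simp_rw [norm_vf]
  exact (summable_geometric_of_lt_one (by positivity) (w_lt hz)).mul_left _

theorem tsum_vf {z : ℂ} (hz : z.re < 1 / 2) :
    ∑' n, ‖vf z n‖ ^ (ENNReal.toReal 2) = (1 - 2 * z.re)⁻¹ := by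
  simp_rw [norm_vf]
  rw [tsum_mul_left, tsum_geometric_of_lt_one (by positivity) (w_lt hz)]
  have h1 : ‖(1 - z)⁻¹‖ ^ 2 = (‖z - 1‖ ^ 2)⁻¹ := by
    rw [norm_inv, inv_pow, norm_sub_rev]
  have h0 : 0 < ‖z - 1‖ ^ 2 := by
    have := norm_pos_iff.2 (ne_one' hz)
    positivity
  rw [h1, ← mul_inv, norm_div, div_pow]
  congr 1
  rw [mul_sub, mul_one, mul_div_cancel₀ _ h0.ne', sq_sub]
  ring

open Classical in
/-- the vector -/
def v (z : ℂ) : H := if hz : z.re < 1 / 2 then ⟨vf z, memℓp_gen (summable_vf hz)⟩ else 0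

theorem v_apply {z : ℂ} (hz : z.re < 1 / 2) (n : ℕ) : (v z : ℕ → ℂ) n = vf z n := by
  rw [v, dif_pos hz]

theorem main : Pool.Agent.Q201.NT.TaskRes := by
  refine ⟨v, ?_, fun z n hz => v_apply hz n, fun z hz => ?_⟩
  · intro S hS z hz
    ext n
    rw [lp.coeFn_sub, Pi.sub_apply, lp.coeFn_smul, Pi.smul_apply, lp.coeFn_sub, Pi.sub_apply,
      smul_eq_mul]
    have h1 := ne_one hz
    have h2 := ne_one' hz
    cases n with
    | zero =>
      rw [hS.1, v_apply hz, vf, e, lp.single_apply_self]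
      simp only [pow_zero, mul_one, sub_zero]
      field_simp
    | succ n =>
      rw [hS.2, v_apply hz, v_apply hz, vf, vf, e, lp.single_apply_ne _ _ _ (Nat.succ_ne_zero n)]
      rw [pow_succ]
      have h3 : z / (z - 1) - z * (z / (z - 1)) + z = 0 := by
        field_simp
        ring
      linear_combination ((1 - z)⁻¹ * (z / (z - 1)) ^ n) * h3
  · rw [lp.norm_eq_tsum_rpow (by simp)]
    have : (∑' i, ‖(v z : ℕ → ℂ) i‖ ^ (ENNReal.toReal 2)) = (1 - 2 * z.re)⁻¹ := by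
      rw [← tsum_vf hz]
      exact tsum_congr fun n => by rw [v_apply hz]
    rw [this]
    have h0 : 0 ≤ 1 - 2 * z.re := by linarith
    rw [Real.inv_rpow h0, ← Real.rpow_neg h0]
    norm_num

end Pool.Agent.Q201.NT.TaskRes
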