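import Pool.Agent.Q201.NT.Stmts

/-!
# Task Shift
-/

set_option autoImplicit false

open MeasureTheory Filter Topology

noncomputable section

namespace Pool.Agent.Q201.NT

/-- the shifted sequence -/
def sh (f : ℕ → ℂ) : ℕ → ℂ
  | 0 => 0
  | n + 1 => f n

theorem two_pos' : (0 : ℝ) < ((2 : ENNReal).toReal) := by norm_num

theorem sh_summable (f : H) : Summable fun i => ‖sh (f : ℕ → ℂ) i‖ ^ ((2 : ENNReal).toReal) := by
  rw [← summable_nat_add_iff 1]
  exact (lp.memℓp f).summable two_pos'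

theorem sh_mem (f : H) : Memℓp (sh (f : ℕ → ℂ)) 2 := memℓp_gen (sh_summable f)

/-- the shift as a linear map -/
def shL : H →ₗ[ℂ] H where
  toFun f := ⟨sh (f : ℕ → ℂ), sh_mem f⟩
  map_add' f g := by
    refine lp.ext (funext fun n => ?_)
    cases n with
    | zero => exact (add_zero (0 : ℂ)).symm
    | succ n => rfl
  map_smul' c f := by
    refine lp.ext (funext fun n => ?_)
    cases n with
    | zero => exact (mul_zero c).symm
    | succ n => rfl

theorem norm_shL (f : H) : ‖shL f‖ = ‖f‖ := by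
  rw [lp.norm_eq_tsum_rpow two_pos', lp.norm_eq_tsum_rpow two_pos']
  congr 1
  have h1 : (fun i => ‖(shL f : ℕ → ℂ) i‖ ^ ((2 : ENNReal).toReal)) =
      fun i => ‖sh (f : ℕ → ℂ) i‖ ^ ((2 : ENNReal).toReal) := rfl
  rw [h1, (sh_summable f).tsum_eq_zero_add]
  have h0 : ‖sh (f : ℕ → ℂ) 0‖ ^ ((2 : ENNReal).toReal) = 0 := by simp [sh]
  rw [h0, zero_add]
  rfl

theorem taskShift : TaskShift := by
  refine ⟨shL.mkContinuous 1 fun f => ?_, ⟨fun f => ?_, fun f n => ?_⟩, ?_⟩
  · rw [norm_shL, one_mul]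
  · rfl
  · rfl
  · exact LinearMap.mkContinuous_norm_le _ zero_le_one _

end Pool.Agent.Q201.NT
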