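import Pool.Agent.Q201.NT.Stmts

set_option autoImplicit false

open MeasureTheory Filter Topology

namespace Pool.Agent.Q201.NT.TaskW

theorem main (hLim : TaskLim) (hLInt : TaskLInt) (hGood : TaskGood) (hEst : TaskEst) :
    Pool.Agent.Q201.NT.TaskW := by
  intro J hJ y hy
  have hae : AEStronglyMeasurable (J y : ℝ → ℂ) nu := Lp.aestronglyMeasurable (J y)
  obtain ⟨g, hgm, hge⟩ := hae
  have hL2 : MemLp g 2 nu := (memLp_congr_ae hge).mp (Lp.memLp (J y))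
  have hfin : IsFiniteMeasure nu := by
    refine ⟨?_⟩
    rw [nu, Measure.restrict_apply_univ]
    exact measure_Ioc_lt_top
  have hum : Measurable (fun t => ‖g t‖) := hgm.norm.measurable
  have hu0 : ∀ t, 0 ≤ ‖g t‖ := fun t => norm_nonneg _
  have hint : Integrable (fun t => ‖g t‖) nu := (hL2.integrable one_le_two).norm
  have hsq : Integrable (fun t => ‖g t‖ ^ 2) nu := hL2.norm.integrable_sq
  have hlow : ∀ η : ℝ, 0 < η →
      2 * Real.pi * Real.log ‖(y : ℕ → ℂ) 0‖ ≤ ∫ t, Real.log (‖g t‖ + η) ∂nu := by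
    intro η hη
    refine (hLim J hJ y η hy hη).trans (le_of_eq ?_)
    refine integral_congr_ae ?_
    filter_upwards [hge] with t ht
    simp only [ht]
  obtain ⟨C, hC, hCb⟩ := hLInt (fun t => ‖g t‖) _ hum hu0 hint hlow
  have hG := hGood (fun t => ‖g t‖) C hum hu0 hC hCb (1 / 40) (by norm_num)
  have hsub : Set.Ioc (0 : ℝ) 1 ⊆ Set.Ioc (0 : ℝ) (2 * Real.pi) := by
    intro t ht
    exact ⟨ht.1, ht.2.trans (by nlinarith [Real.pi_gt_three])⟩
  have hgae : ∀ᵐ t ∂(volume.restrict (Set.Ioc (0 : ℝ) 1)), (J y : ℝ → ℂ) t = g t :=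
    ae_restrict_of_ae_restrict_of_subset hsub hge
  have hsqOn : IntegrableOn (fun t => ‖g t‖ ^ 2) (Set.Ioc 0 1) volume :=
    IntegrableOn.mono_set (show IntegrableOn _ (Set.Ioc (0 : ℝ) (2 * Real.pi)) volume from hsq) hsub
  have hG2 : ∀ᶠ d in 𝓝[>] (0 : ℝ), ENNReal.ofReal (d / 2) ≤
      volume {t : ℝ | d ≤ t ∧ t ≤ 2 * d ∧ Real.exp (-(1 / 20) / d) ≤ ‖g t‖ ^ 2} := by
    filter_upwards [hG, self_mem_nhdsWithin] with d hd hd0
    refine hd.trans (measure_mono ?_)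
    intro t ht
    refine ⟨ht.1, ht.2.1, ?_⟩
    have h1 : Real.exp (-(1 / 40) / d) ≤ ‖g t‖ := ht.2.2
    have h2 : Real.exp (-(1 / 20) / d) = Real.exp (-(1 / 40) / d) ^ 2 := by
      rw [← Real.exp_nat_mul]
      congr 1
      push_cast
      ring
    rw [h2]
    exact pow_le_pow_left₀ (Real.exp_pos _).le h1 2
  have hW := hEst (fun t => ‖g t‖ ^ 2) (hum.pow_const 2) (fun t => by positivity) hsqOn hG2
  constructor
  · have heq : ∫ t in Set.Ioc (0 : ℝ) 1, ‖(J y : ℝ → ℂ) t‖ ^ 2 =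
        ∫ t in Set.Ioc (0 : ℝ) 1, ‖g t‖ ^ 2 := by
      refine integral_congr_ae ?_
      filter_upwards [hgae] with t ht
      simp only [ht]
    rw [heq]
    rw [integral_pos_iff_support_of_nonneg_ae (Eventually.of_forall fun t => by positivity) hsqOn]
    obtain ⟨d, hd, hd1⟩ := (hG2.and (Ioo_mem_nhdsGT (show (0 : ℝ) < 1 / 2 by norm_num))).exists
    have hd0 : 0 < d := hd1.1
    have hpos : (0 : ENNReal) < ENNReal.ofReal (d / 2) := ENNReal.ofReal_pos.mpr (by linarith)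
    refine lt_of_lt_of_le hpos (hd.trans ?_)
    have hmeas : MeasurableSet {t : ℝ | d ≤ t ∧ t ≤ 2 * d ∧ Real.exp (-(1 / 20) / d) ≤ ‖g t‖ ^ 2} := by
      refine (measurableSet_le measurable_const measurable_id).inter
        ((measurableSet_le measurable_id measurable_const).inter
          (measurableSet_le measurable_const (hum.pow_const 2)))
    have hsub2 : {t : ℝ | d ≤ t ∧ t ≤ 2 * d ∧ Real.exp (-(1 / 20) / d) ≤ ‖g t‖ ^ 2} ⊆
        Set.Ioc (0 : ℝ) 1 := by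
      intro t ht
      exact ⟨lt_of_lt_of_le hd0 ht.1, ht.2.1.trans (by linarith [hd1.2])⟩
    have hre : volume {t : ℝ | d ≤ t ∧ t ≤ 2 * d ∧ Real.exp (-(1 / 20) / d) ≤ ‖g t‖ ^ 2} =
        (volume.restrict (Set.Ioc (0 : ℝ) 1))
          {t : ℝ | d ≤ t ∧ t ≤ 2 * d ∧ Real.exp (-(1 / 20) / d) ≤ ‖g t‖ ^ 2} := by
      rw [Measure.restrict_apply hmeas, Set.inter_eq_left.mpr hsub2]
    rw [hre]
    refine measure_mono ?_
    intro t ht
    have h3 : 0 < ‖g t‖ ^ 2 := lt_of_lt_of_le (Real.exp_pos _) ht.2.2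
    exact ne_of_gt h3
  · filter_upwards [hW] with k hk
    have heq : ∫ t in Set.Ioc (0 : ℝ) 1, Lam t ^ k * ((‖(J y : ℝ → ℂ) t‖ ^ 2 : ℝ) : ℂ) =
        ∫ t in Set.Ioc (0 : ℝ) 1, Lam t ^ k * ((‖g t‖ ^ 2 : ℝ) : ℂ) := by
      refine integral_congr_ae ?_
      filter_upwards [hgae] with t ht
      simp only [ht]
    rw [heq]
    exact hk

end Pool.Agent.Q201.NT.TaskW
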